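import Pool.Agent.W586.GZ.Stm

/-!
# GZ-C3: the square of `c_0 + Z` is not complemented in it
-/

set_option autoImplicit false
open Filter Topology

namespace Pool.Agent.W61.GZ.C3

open Pool.Agent.W586.GZ

/-- the scalar inequality -/
lemma scal (e1 e2 d1 d2 : ℝ) :
    1 / 10 ≤ |1 - e1 * d1| + |0 - e1 * d2| + |0 - e2 * d1| + |1 - e2 * d2| := by
  by_contra hc
  push Not at hc
  have h1 := abs_nonneg (1 - e1 * d1)
  have h2 := abs_nonneg (0 - e1 * d2)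
  have h3 := abs_nonneg (0 - e2 * d1)
  have h4 := abs_nonneg (1 - e2 * d2)
  have k1 : |1 - e1 * d1| < 1 / 10 := by linarith
  have k2 : |0 - e1 * d2| < 1 / 10 := by linarith
  have k3 : |0 - e2 * d1| < 1 / 10 := by linarith
  have k4 : |1 - e2 * d2| < 1 / 10 := by linarith
  rw [abs_lt] at k1 k4
  have m1 : 9 / 10 < e1 * d1 := by linarith
  have m4 : 9 / 10 < e2 * d2 := by linarith
  have m5 : (9 / 10 : ℝ) * (9 / 10) < (e1 * d1) * (e2 * d2) :=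
    mul_lt_mul'' m1 m4 (by norm_num) (by norm_num)
  have m6 : |0 - e1 * d2| * |0 - e2 * d1| ≤ (1 / 10) * (1 / 10) :=
    mul_le_mul k2.le k3.le h3 (by norm_num)
  rw [← abs_mul] at m6
  have m7 : (0 - e1 * d2) * (0 - e2 * d1) = (e1 * d1) * (e2 * d2) := by ring
  rw [m7] at m6
  have m8 := le_abs_self ((e1 * d1) * (e2 * d2))
  linarith

section

variable {S : Set (ℕ →₀ ℚ)} (hS : Idl S) {X : Type} [NormedAddCommGroup X] [NormedSpace ℝ X]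
  {e : ℕ → X} {e' : ℕ → (X →L[ℝ] ℝ)}

lemma coord_nb (hM : Model S X e e') (x : X) : NB S (fun n => e' n x) ‖x‖ :=
  (hM.nrm x ‖x‖ (norm_nonneg x)).1 le_rfl

include hS in
lemma coord_le (hM : Model S X e e') (x : X) (n : ℕ) : |e' n x| ≤ ‖x‖ :=
  (coord_nb hM x).coord hS n

include hS in
lemma norm_e (hM : Model S X e e') (n : ℕ) : ‖e n‖ ≤ 1 := by
  rw [hM.nrm (e n) 1 zero_le_one]
  have h := NB.of_l1 hS (x := fun k => e' k (e n)) {n} (by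
    intro i hi
    rw [hM.bio] at hi
    by_contra hc
    rw [Finset.mem_singleton] at hc
    rw [if_neg hc] at hi
    exact hi rfl)
  rw [Finset.sum_singleton, hM.bio, if_pos rfl, abs_one] at h
  exact h

include hS in
lemma diag_le (hM : Model S X e e') (U : X →L[ℝ] X) (n : ℕ) : |e' n (U (e n))| ≤ ‖U‖ := by
  have h1 := coord_le hS hM (U (e n)) n
  have h2 := U.le_opNorm (e n)
  have h3 := norm_e hS hM n
  have h4 := norm_nonneg U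
  nlinarith

include hS in
/-- the key estimate -/
lemma key (hM : Model S X e e') (y : X) (z11 z12 z21 z22 : X) (η : ℝ) (hη : 0 ≤ η)
    (h11 : ‖z11‖ ≤ η) (h12 : ‖z12‖ ≤ η) (h21 : ‖z21‖ ≤ η) (h22 : ‖z22‖ ≤ η)
    (e1 e2 d1 d2 : ℕ → ℝ)
    (c11 : ∀ n, e' n z11 = (1 - e1 n * d1 n) * e' n y)
    (c12 : ∀ n, e' n z12 = (0 - e1 n * d2 n) * e' n y)
    (c21 : ∀ n, e' n z21 = (0 - e2 n * d1 n) * e' n y)
    (c22 : ∀ n, e' n z22 = (1 - e2 n * d2 n) * e' n y) : ‖y‖ ≤ 40 * η := by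
  rw [hM.nrm y _ (by positivity)]
  have ha : ∀ z : X, ‖z‖ ≤ η → NB S (fun n => |e' n z|) η := fun z hz =>
    NB.le hS ((coord_nb hM z).mono hz) (fun i => by rw [abs_abs])
  have h5 := (((ha z11 h11).add hS (ha z12 h12)).add hS (ha z21 h21)).add hS (ha z22 h22)
  have h6 := h5.smul 10
  have h7 : |(10 : ℝ)| * (η + η + η + η) = 40 * η := by
    rw [abs_of_nonneg (by norm_num)]; ring
  rw [h7] at h6
  refine NB.le hS h6 (fun n => ?_)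
  have k : |e' n y| ≤ 10 * (|e' n z11| + |e' n z12| + |e' n z21| + |e' n z22|) := by
    rw [c11, c12, c21, c22, abs_mul, abs_mul, abs_mul, abs_mul]
    have h8 := scal (e1 n) (e2 n) (d1 n) (d2 n)
    have h9 := abs_nonneg (e' n y)
    nlinarith
  exact le_trans k (le_abs_self _)

end

theorem main : S_MATX → S_MULT → S_C2 → S_C3 := by
  intro _ hMULT hC2 P X _ _ _ e e' hM V₁ V₂ U₁ U₂ h11 h22 h12 h21
  have hS := WX_idl P
  obtain ⟨D₁, hD₁e, hD₁c, hD₁n⟩ := hMULT (WX P) X e e' hS hM (fun n => e' n (U₁ (e n))) ‖U₁‖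
    (fun n => diag_le hS hM U₁ n)
  obtain ⟨D₂, hD₂e, hD₂c, hD₂n⟩ := hMULT (WX P) X e e' hS hM (fun n => e' n (U₂ (e n))) ‖U₂‖
    (fun n => diag_le hS hM U₂ n)
  set d₁ : ℕ → ℝ := fun n => e' n (U₁ (e n)) with hd₁
  set d₂ : ℕ → ℝ := fun n => e' n (U₂ (e n)) with hd₂
  set v₁ : ℕ → ℝ := fun n => e' n (V₁ (e n)) with hv₁
  set v₂ : ℕ → ℝ := fun n => e' n (V₂ (e n)) with hv₂
  have hE : ∀ (V D : X →L[ℝ] X) (d : ℕ → ℝ), (∀ n, D (e n) = d n • e n) →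
      ∃ E : X →L[ℝ] X, (∀ n, E (e n) = e' n ((V.comp D) (e n)) • e n) ∧
        (∀ x n, e' n (E x) = (e' n (V (e n)) * d n) * e' n x) := by
    intro V D d hd
    obtain ⟨E, hE1, hE2, -⟩ := hMULT (WX P) X e e' hS hM (fun n => e' n ((V.comp D) (e n)))
      ‖V.comp D‖ (fun n => diag_le hS hM _ n)
    refine ⟨E, hE1, fun x n => ?_⟩
    rw [hE2, ContinuousLinearMap.comp_apply, hd, map_smul, map_smul, smul_eq_mul]
    ring
  obtain ⟨E₁₁, hE11e, hE11c⟩ := hE V₁ D₁ d₁ hD₁e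
  obtain ⟨E₁₂, hE12e, hE12c⟩ := hE V₁ D₂ d₂ hD₂e
  obtain ⟨E₂₁, hE21e, hE21c⟩ := hE V₂ D₁ d₁ hD₁e
  obtain ⟨E₂₂, hE22e, hE22c⟩ := hE V₂ D₂ d₂ hD₂e
  set M : ℝ := ‖V₁‖ + ‖V₂‖ + 1 with hMdef
  have hM0 : 0 < M := by positivity
  set ε : ℝ := 1 / (80 * M) with hε
  have hε0 : 0 < ε := by positivity
  set W : ℕ → (X →L[ℝ] X) := fun i =>
    if i = 0 then U₁ else if i = 1 then U₂ else if i = 2 then V₁.comp D₁ else
      if i = 3 then V₁.comp D₂ else if i = 4 then V₂.comp D₁ else V₂.comp D₂ with hW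
  obtain ⟨y, hy1, hy⟩ := hC2 P X e e' hM 6 W ε hε0
  have y0 : ‖U₁ y - D₁ y‖ ≤ ε := hy 0 (by norm_num) D₁ (fun n => hD₁e n)
  have y1 : ‖U₂ y - D₂ y‖ ≤ ε := hy 1 (by norm_num) D₂ (fun n => hD₂e n)
  have y2 : ‖V₁ (D₁ y) - E₁₁ y‖ ≤ ε := hy 2 (by norm_num) E₁₁ (fun n => hE11e n)
  have y3 : ‖V₁ (D₂ y) - E₁₂ y‖ ≤ ε := hy 3 (by norm_num) E₁₂ (fun n => hE12e n)
  have y4 : ‖V₂ (D₁ y) - E₂₁ y‖ ≤ ε := hy 4 (by norm_num) E₂₁ (fun n => hE21e n)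
  have y5 : ‖V₂ (D₂ y) - E₂₂ y‖ ≤ ε := hy 5 (by norm_num) E₂₂ (fun n => hE22e n)
  have hgen : ∀ (V U D E : X →L[ℝ] X), ‖V‖ ≤ ‖V₁‖ + ‖V₂‖ → ‖U y - D y‖ ≤ ε →
      ‖V (D y) - E y‖ ≤ ε → ‖V (U y) - E y‖ ≤ M * ε := by
    intro V U D E hV hU hVE
    have h1 : V (U y) - E y = V (U y - D y) + (V (D y) - E y) := by
      rw [map_sub]; abel
    rw [h1]
    have h2 := norm_add_le (V (U y - D y)) (V (D y) - E y)
    have h3 := V.le_opNorm (U y - D y)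
    have h4 := norm_nonneg (U y - D y)
    have h5 := norm_nonneg V
    have h6 : ‖V‖ * ‖U y - D y‖ ≤ (‖V₁‖ + ‖V₂‖) * ε :=
      mul_le_mul hV hU h4 (by positivity)
    have h7 : M * ε = (‖V₁‖ + ‖V₂‖) * ε + ε := by rw [hMdef]; ring
    linarith
  have n1 : ‖V₁‖ ≤ ‖V₁‖ + ‖V₂‖ := by linarith [norm_nonneg V₂]
  have n2 : ‖V₂‖ ≤ ‖V₁‖ + ‖V₂‖ := by linarith [norm_nonneg V₁]
  have z11 := hgen V₁ U₁ D₁ E₁₁ n1 y0 y2
  have z12 := hgen V₁ U₂ D₂ E₁₂ n1 y1 y3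
  have z21 := hgen V₂ U₁ D₁ E₂₁ n2 y0 y4
  have z22 := hgen V₂ U₂ D₂ E₂₂ n2 y1 y5
  have hfin := key hS hM y _ _ _ _ (M * ε) (by positivity) z11 z12 z21 z22 v₁ v₂ d₁ d₂
    (by
      intro n
      rw [map_sub, hE11c, h11]
      ring)
    (by
      intro n
      rw [map_sub, hE12c, h12, map_zero]
      ring)
    (by
      intro n
      rw [map_sub, hE21c, h21, map_zero]
      ring)
    (by
      intro n
      rw [map_sub, hE22c, h22]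
      ring)
  have h80 : 40 * (M * ε) = 1 / 2 := by
    rw [hε]
    field_simp
    norm_num
  linarith

end Pool.Agent.W61.GZ.C3
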